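import Mathlib

/-!
# Scaled `q`-numerical ranges: the circles
-/

set_option autoImplicit false

open Polynomial

namespace Pool.Agent.T2H66.QN

variable {H : Type*} [NormedAddCommGroup H] [InnerProductSpace ℂ H]

/-- The scaled `q`-numerical range `{⟨A x, y⟩ / q : ‖x‖ = ‖y‖ = 1, ⟨x, y⟩ = q}` (inner products
`⟨x, y⟩ = inner ℂ y x` linear in `x`). -/
def Om (A : H →L[ℂ] H) (q : ℂ) : Set ℂ :=
  {z | ∃ x y : H, ‖x‖ = 1 ∧ ‖y‖ = 1 ∧ inner ℂ y x = q ∧ z = inner ℂ y (A x) / q}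

/-- there is a unit vector orthogonal to every given vector -/
def Big (H : Type*) [NormedAddCommGroup H] [InnerProductSpace ℂ H] : Prop :=
  ∀ x : H, ∃ h : H, ‖h‖ = 1 ∧ inner ℂ h x = 0

/-- the deviation `A x - ⟨A x, x⟩ x` -/
noncomputable def dev (A : H →L[ℂ] H) (x : H) : H := A x - (inner ℂ x (A x)) • x

lemma inner_dev (A : H →L[ℂ] H) {x : H} (hx : ‖x‖ = 1) : inner ℂ x (dev A x) = 0 := by
  unfold dev
  rw [inner_sub_right, inner_smul_right, inner_self_eq_norm_sq_to_K, hx]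
  simp

/-- **The circles.** -/
lemma circle_mem (A : H →L[ℂ] H) (q : ℂ) (hq0 : q ≠ 0) (hq1 : ‖q‖ ≤ 1)
    (hb : ‖q‖ = 1 ∨ Big H) {x : H} (hx : ‖x‖ = 1) {ζ : ℂ}
    (hζ : ‖ζ‖ = Real.sqrt (1 - ‖q‖ ^ 2) / ‖q‖ * ‖dev A x‖) : inner ℂ x (A x) + ζ ∈ Om A q := by
  have hqn : 0 < ‖q‖ := norm_pos_iff.2 hq0
  have hxx : inner ℂ x x = (1 : ℂ) := by
    rw [inner_self_eq_norm_sq_to_K, hx]
    simp
  have hAx : A x = dev A x + (inner ℂ x (A x)) • x := by
    unfold dev
    abel
  set w := Real.sqrt (1 - ‖q‖ ^ 2) with hw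
  have hw0 : 0 ≤ w := Real.sqrt_nonneg _
  have hw2 : w ^ 2 = 1 - ‖q‖ ^ 2 := Real.sq_sqrt (by nlinarith [norm_nonneg q])
  -- a suitable `h`
  have key : ∃ h : H, (w = 0 ∨ ‖h‖ = 1) ∧ inner ℂ h x = 0 ∧
      (w : ℂ) * inner ℂ h (dev A x) = ζ * q := by
    by_cases h0 : w = 0
    · refine ⟨0, Or.inl h0, by simp, ?_⟩
      rw [h0, zero_div, zero_mul, norm_eq_zero] at hζ
      simp [hζ]
    have hbig : Big H := by
      rcases hb with hb | hb
      · exfalso
        apply h0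
        rw [hw, hb]
        simp
      · exact hb
    by_cases hg : dev A x = 0
    · obtain ⟨h, hh1, hh2⟩ := hbig x
      refine ⟨h, Or.inr hh1, hh2, ?_⟩
      rw [hg, norm_zero, mul_zero, norm_eq_zero] at hζ
      simp [hg, hζ]
    · have hgn : 0 < ‖dev A x‖ := norm_pos_iff.2 hg
      have hwc : (w : ℂ) ≠ 0 := by exact_mod_cast h0
      have hgc : ((‖dev A x‖ : ℝ) : ℂ) ≠ 0 := by exact_mod_cast hgn.ne'
      set c : ℂ := ζ * q / ((w : ℂ) * ‖dev A x‖ ^ 2) with hc
      refine ⟨(starRingEnd ℂ c) • dev A x, Or.inr ?_, ?_, ?_⟩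
      · rw [norm_smul, RCLike.norm_conj, hc, norm_div, norm_mul, norm_mul, hζ, norm_pow]
        rw [Complex.norm_real, Complex.norm_real, Real.norm_of_nonneg hw0, norm_norm]
        have hwp : 0 < w := lt_of_le_of_ne hw0 (Ne.symm h0)
        field_simp
      · rw [inner_smul_left, ← inner_conj_symm, inner_dev A hx]
        simp
      · rw [inner_smul_left, inner_self_eq_norm_sq_to_K, Complex.conj_conj, hc]
        push_cast
        field_simp
        rfl
  obtain ⟨h, hh1, hh2, hh3⟩ := key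
  have hxh : inner ℂ x h = (0 : ℂ) := by
    rw [← inner_conj_symm, hh2]
    simp
  refine ⟨x, (starRingEnd ℂ q) • x + (w : ℂ) • h, hx, ?_, ?_, ?_⟩
  · have h1 : ‖(starRingEnd ℂ q) • x + (w : ℂ) • h‖ ^ 2 = 1 := by
      rw [@norm_add_sq ℂ, inner_smul_left, inner_smul_right, hxh, norm_smul, norm_smul,
        RCLike.norm_conj, Complex.norm_real, Real.norm_of_nonneg hw0, hx]
      rcases hh1 with hh1 | hh1
      · rw [hh1] at hw2 ⊢
        simp only [mul_zero, zero_mul, map_zero, mul_one]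
        have : (0 : ℝ) ^ 2 = 0 := by norm_num
        linarith
      · rw [hh1]
        simp only [mul_zero, map_zero, mul_one]
        linarith
    have h2 : ‖(starRingEnd ℂ q) • x + (w : ℂ) • h‖ = 1 := by
      have h3 := norm_nonneg ((starRingEnd ℂ q) • x + (w : ℂ) • h)
      nlinarith
    exact h2
  · rw [inner_add_left, inner_smul_left, inner_smul_left, hh2, hxx, Complex.conj_conj]
    simp
  · rw [inner_add_left, inner_smul_left, inner_smul_left, Complex.conj_conj, Complex.conj_ofReal]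
    have h4 : inner ℂ h (A x) = inner ℂ h (dev A x) := by
      conv_lhs => rw [hAx]
      rw [inner_add_right, inner_smul_right, hh2]
      simp
    rw [h4, hh3]
    field_simp

/-- the discs, for polynomials -/
lemma disc_le (A : H →L[ℂ] H) (q : ℂ) (hq0 : q ≠ 0) (hq1 : ‖q‖ ≤ 1)
    (hb : ‖q‖ = 1 ∨ Big H) (p : ℂ[X]) (M : ℝ) (hM : ∀ z ∈ Om A q, ‖p.eval z‖ ≤ M) {x : H}
    (hx : ‖x‖ = 1) {z : ℂ}
    (hz : ‖z - inner ℂ x (A x)‖ ≤ Real.sqrt (1 - ‖q‖ ^ 2) / ‖q‖ * ‖dev A x‖) :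
    ‖p.eval z‖ ≤ M := by
  set r := Real.sqrt (1 - ‖q‖ ^ 2) / ‖q‖ * ‖dev A x‖ with hr
  have hr0 : 0 ≤ r := by positivity
  set m : ℂ := inner ℂ x (A x) with hm
  rcases hr0.eq_or_lt with h0 | h0
  · have h1 : z = m + 0 := by
      have : ‖z - m‖ = 0 := le_antisymm (by rw [h0]; exact hz) (norm_nonneg _)
      rw [norm_eq_zero, sub_eq_zero] at this
      rw [this, add_zero]
    apply hM
    rw [h1]
    exact circle_mem A q hq0 hq1 hb hx (by rw [norm_zero]; exact h0)
  · refine Complex.norm_le_of_forall_mem_frontier_norm_le (U := Metric.ball m r)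
      Metric.isBounded_ball (f := fun z => p.eval z) p.differentiable.diffContOnCl ?_ ?_
    · intro w hw
      rw [frontier_ball _ h0.ne', mem_sphere_iff_norm] at hw
      apply hM
      have : w = m + (w - m) := by ring
      rw [this]
      exact circle_mem A q hq0 hq1 hb hx hw
    · rw [closure_ball _ h0.ne', mem_closedBall_iff_norm]
      exact hz

end Pool.Agent.T2H66.QN
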