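import Pool.Agent.T2H66.QN.Sim

/-!
# The extremal problem
-/

set_option autoImplicit false

open Polynomial

namespace Pool.Agent.T2H66.QN

/-- a quadratic approximation of the Möbius transformations -/
lemma mob (w a : ℂ) (hw : ‖w‖ ≤ 1) :
    ‖w + a - (starRingEnd ℂ) a * w ^ 2‖ ^ 2 ≤ 1 + 4 * ‖a‖ ^ 2 := by
  have hw2 : ‖w‖ ^ 2 ≤ 1 := pow_le_one₀ (norm_nonneg _) hw
  rw [Complex.sq_norm] at hw2 ⊢
  rw [Complex.sq_norm]
  obtain ⟨x, y⟩ := w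
  obtain ⟨b, c⟩ := a
  rw [Complex.normSq_apply] at hw2 ⊢
  rw [Complex.normSq_apply]
  simp only [pow_two, Complex.add_re, Complex.sub_re, Complex.mul_re, Complex.conj_re,
    Complex.conj_im, Complex.add_im, Complex.sub_im, Complex.mul_im] at hw2 ⊢
  have key : 1 + 4 * (b * b + c * c) - ((x + b - (b * (x * x - y * y) - -c * (x * y + y * x))) *
      (x + b - (b * (x * x - y * y) - -c * (x * y + y * x))) +
      (y + c - (b * (x * y + y * x) + -c * (x * x - y * y))) *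
      (y + c - (b * (x * y + y * x) + -c * (x * x - y * y)))) =
      (1 - (x * x + y * y)) * ((1 - (b * x + c * y)) ^ 2 + 3 * (b * b + c * c) +
        (b * y - c * x) ^ 2) + 4 * (b * x + c * y) ^ 2 := by
    ring
  have h1 : 0 ≤ (1 - (x * x + y * y)) * ((1 - (b * x + c * y)) ^ 2 + 3 * (b * b + c * c) +
        (b * y - c * x) ^ 2) + 4 * (b * x + c * y) ^ 2 := by
    have h2 : 0 ≤ 1 - (x * x + y * y) := by linarith
    have h3 : 0 ≤ b * b + c * c := add_nonneg (mul_self_nonneg _) (mul_self_nonneg _)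
    have h4 : 0 ≤ (1 - (b * x + c * y)) ^ 2 + 3 * (b * b + c * c) + (b * y - c * x) ^ 2 :=
      add_nonneg (add_nonneg (sq_nonneg _) (by linarith)) (sq_nonneg _)
    exact add_nonneg (mul_nonneg h2 h4) (by positivity)
  linarith

variable {H : Type*} [NormedAddCommGroup H] [InnerProductSpace ℂ H] [CompleteSpace H]

/-- **Near orthogonality.** -/
lemma ortho (T : H →L[ℂ] H) {K : ℝ} (hK : ‖T‖ ≤ K)
    (hm : ∀ a : ℂ, ‖T + a • (1 : H →L[ℂ] H) - (starRingEnd ℂ) a • (T * T)‖ ≤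
      K * Real.sqrt (1 + 4 * ‖a‖ ^ 2)) {x y : H} (hx : ‖x‖ = 1) (hy : ‖y‖ = 1) {κ : ℝ}
    (hκ : 0 < κ) (hxy : T x = (κ : ℂ) • y) {η : ℝ} (hη : 0 < η) :
    η * (κ ^ 2 - 1) * ‖inner ℂ y x‖ ≤ (K - κ) + 2 * K * η ^ 2 +
      κ * η * Real.sqrt (K ^ 2 - κ ^ 2) := by
  have hK0 : 0 ≤ K := (norm_nonneg _).trans hK
  have hyy : inner ℂ y y = (1 : ℂ) := by
    rw [inner_self_eq_norm_sq_to_K, hy]
    simp
  have hκK : κ ≤ K := by
    have h1 := T.le_opNorm x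
    rw [hxy, norm_smul, hy, hx, Complex.norm_real, Real.norm_of_nonneg hκ.le] at h1
    linarith
  have hs0 : 0 ≤ Real.sqrt (K ^ 2 - κ ^ 2) := Real.sqrt_nonneg _
  set θ : ℂ := inner ℂ y x with hθ
  by_cases hθ0 : θ = 0
  · rw [hθ0, norm_zero, mul_zero]
    have : 0 ≤ K - κ := by linarith
    positivity
  have hθn : 0 < ‖θ‖ := norm_pos_iff.2 hθ0
  have hθc : ((‖θ‖ : ℝ) : ℂ) ≠ 0 := by exact_mod_cast hθn.ne'
  set a : ℂ := -(η : ℂ) * ((starRingEnd ℂ) θ / ‖θ‖) with ha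
  have hna : ‖a‖ = η := by
    rw [ha, norm_mul, norm_neg, Complex.norm_real, Real.norm_of_nonneg hη.le, norm_div,
      RCLike.norm_conj, Complex.norm_real, norm_norm, div_self hθn.ne', mul_one]
  have haθ : a * θ = ((-(η * ‖θ‖) : ℝ) : ℂ) := by
    have h1 : (starRingEnd ℂ) θ * θ = ((‖θ‖ : ℝ) : ℂ) ^ 2 := by
      rw [mul_comm, Complex.mul_conj, Complex.normSq_eq_norm_sq]
      push_cast
      rfl
    calc a * θ = -(η : ℂ) * (((starRingEnd ℂ) θ * θ) / ‖θ‖) := by rw [ha]; ring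
      _ = _ := by
        rw [h1]
        push_cast
        field_simp
  have haθ' : (starRingEnd ℂ) a * (starRingEnd ℂ) θ = ((-(η * ‖θ‖) : ℝ) : ℂ) := by
    rw [← map_mul, haθ, Complex.conj_ofReal]
  -- the adjoint
  set E : H := (ContinuousLinearMap.adjoint T) y - (κ : ℂ) • x with hE
  have hTy : (ContinuousLinearMap.adjoint T) y = (κ : ℂ) • x + E := by
    rw [hE]
    abel
  have hyT : inner ℂ y (T x) = (κ : ℂ) := by
    rw [hxy, inner_smul_right, hyy, mul_one]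
  have hEn : ‖E‖ ^ 2 ≤ K ^ 2 - κ ^ 2 := by
    rw [hE, @norm_sub_sq ℂ, inner_smul_right, ContinuousLinearMap.adjoint_inner_left, hyT,
      norm_smul, hx, Complex.norm_real, Real.norm_of_nonneg hκ.le]
    have h1 : ‖(ContinuousLinearMap.adjoint T) y‖ ≤ K := by
      have h2 := (ContinuousLinearMap.adjoint T).le_opNorm y
      rw [hy, mul_one] at h2
      refine h2.trans ?_
      rw [LinearIsometryEquiv.norm_map]
      exact hK
    have h3 : ‖(ContinuousLinearMap.adjoint T) y‖ ^ 2 ≤ K ^ 2 :=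
      pow_le_pow_left₀ (norm_nonneg _) h1 2
    rw [← Complex.ofReal_mul, RCLike.re_eq_complex_re, Complex.ofReal_re]
    nlinarith
  have hEn' : ‖E‖ ≤ Real.sqrt (K ^ 2 - κ ^ 2) := Real.le_sqrt_of_sq_le hEn
  have hTT : inner ℂ y ((T * T) x) = (κ : ℂ) ^ 2 * (starRingEnd ℂ) θ + κ * inner ℂ E y := by
    show inner ℂ y (T (T x)) = _
    rw [hxy, map_smul, inner_smul_right, ← ContinuousLinearMap.adjoint_inner_left, hTy,
      inner_add_left, inner_smul_left, Complex.conj_ofReal, ← inner_conj_symm x y, ← hθ]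
    ring
  have hval : inner ℂ y ((T + a • (1 : H →L[ℂ] H) - (starRingEnd ℂ) a • (T * T)) x) =
      ((κ - η * ‖θ‖ + κ ^ 2 * (η * ‖θ‖) : ℝ) : ℂ) - (starRingEnd ℂ) a * κ * inner ℂ E y := by
    rw [sub_apply, add_apply, smul_apply, smul_apply, inner_sub_right,
      inner_add_right, inner_smul_right, inner_smul_right, hyT, hTT, mul_add]
    have h1 : inner ℂ y ((1 : H →L[ℂ] H) x) = θ := rfl
    rw [h1, haθ]
    have h2 : (starRingEnd ℂ) a * ((κ : ℂ) ^ 2 * (starRingEnd ℂ) θ) =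
        (κ : ℂ) ^ 2 * ((starRingEnd ℂ) a * (starRingEnd ℂ) θ) := by ring
    rw [h2, haθ']
    push_cast
    ring
  have hup : (inner ℂ y ((T + a • (1 : H →L[ℂ] H) - (starRingEnd ℂ) a • (T * T)) x)).re ≤
      K * (1 + 2 * η ^ 2) := by
    refine (Complex.re_le_norm _).trans ?_
    refine (norm_inner_le_norm _ _).trans ?_
    rw [hy, one_mul]
    refine (ContinuousLinearMap.le_opNorm _ _).trans ?_
    rw [hx, mul_one]
    refine (hm a).trans ?_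
    rw [hna]
    apply mul_le_mul_of_nonneg_left _ hK0
    rw [Real.sqrt_le_left (by positivity)]
    nlinarith [sq_nonneg (η ^ 2)]
  rw [hval, Complex.sub_re, Complex.ofReal_re] at hup
  have herr : ((starRingEnd ℂ) a * κ * inner ℂ E y).re ≤ κ * η * Real.sqrt (K ^ 2 - κ ^ 2) := by
    refine (Complex.re_le_norm _).trans ?_
    rw [norm_mul, norm_mul, RCLike.norm_conj, hna, Complex.norm_real, Real.norm_of_nonneg hκ.le]
    have h1 : ‖inner ℂ E y‖ ≤ Real.sqrt (K ^ 2 - κ ^ 2) := by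
      refine (norm_inner_le_norm (𝕜 := ℂ) _ _).trans ?_
      rw [hy, mul_one]
      exact hEn'
    calc η * κ * ‖inner ℂ E y‖ ≤ η * κ * Real.sqrt (K ^ 2 - κ ^ 2) := by gcongr
      _ = _ := by ring
  linarith

/-- the Möbius variation -/
lemma mob_poly (A : H →L[ℂ] H) (Ω : Set ℂ) {K : ℝ}
    (hKle : ∀ p : ℂ[X], (∀ z ∈ Ω, ‖p.eval z‖ ≤ 1) → ‖aeval A p‖ ≤ K) (p : ℂ[X])
    (hp : ∀ z ∈ Ω, ‖p.eval z‖ ≤ 1) (a : ℂ) :
    ‖aeval A p + a • (1 : H →L[ℂ] H) - (starRingEnd ℂ) a • (aeval A p * aeval A p)‖ ≤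
      K * Real.sqrt (1 + 4 * ‖a‖ ^ 2) := by
  set ρ := Real.sqrt (1 + 4 * ‖a‖ ^ 2) with hρ
  have hρ0 : 0 < ρ := Real.sqrt_pos.2 (by positivity)
  have h1 := hKle (C ((ρ⁻¹ : ℝ) : ℂ) * (p + C a - C ((starRingEnd ℂ) a) * p ^ 2)) (by
    intro z hz
    have e1 : (C ((ρ⁻¹ : ℝ) : ℂ) * (p + C a - C ((starRingEnd ℂ) a) * p ^ 2)).eval z =
        ((ρ⁻¹ : ℝ) : ℂ) * (p.eval z + a - (starRingEnd ℂ) a * (p.eval z) ^ 2) := by
      simp only [eval_mul, eval_C, eval_sub, eval_add, eval_pow]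
    rw [e1, norm_mul, Complex.norm_real, norm_inv, Real.norm_of_nonneg hρ0.le,
      inv_mul_le_iff₀ hρ0, mul_one]
    exact Real.le_sqrt_of_sq_le (mob _ a (hp z hz)))
  have h2 : aeval A (C ((ρ⁻¹ : ℝ) : ℂ) * (p + C a - C ((starRingEnd ℂ) a) * p ^ 2)) =
      ((ρ⁻¹ : ℝ) : ℂ) • (aeval A p + a • (1 : H →L[ℂ] H) -
        (starRingEnd ℂ) a • (aeval A p * aeval A p)) := by
    rw [map_mul, map_sub, map_add, map_mul, map_pow, aeval_C, aeval_C, aeval_C,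
      Algebra.algebraMap_eq_smul_one, Algebra.algebraMap_eq_smul_one,
      Algebra.algebraMap_eq_smul_one, smul_mul_assoc, smul_mul_assoc, one_mul, one_mul,
      pow_two]
  rw [h2, norm_smul, Complex.norm_real, norm_inv, Real.norm_of_nonneg hρ0.le,
    inv_mul_le_iff₀ hρ0] at h1
  linarith

/-- **The estimate for a nearly extremal operator.** -/
lemma near (T : H →L[ℂ] H) {K s ε : ℝ} (hK1 : 1 < K) (hK2 : K ≤ 2) (hTK : ‖T‖ ≤ K)
    (hm : ∀ a : ℂ, ‖T + a • (1 : H →L[ℂ] H) - (starRingEnd ℂ) a • (T * T)‖ ≤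
      K * Real.sqrt (1 + 4 * ‖a‖ ^ 2)) (hr : K - ε < ‖T‖) (hε0 : 0 < ε) (hε1 : ε ≤ (K - 1) / 4)
    (hs : 0 < s) (hs1 : s ≤ 1)
    (hsim : ∀ e v : H, ‖e‖ = 1 → ‖Di s e (T v)‖ ≤ 2 * ‖Di s e v‖) :
    K ^ 2 ≤ 4 * s ^ 2 + ε * (4 + 1296 / (K - 1) ^ 2) := by
  have hKd : 0 < K - 1 := by linarith
  obtain ⟨x0, hx0, hx0'⟩ := ContinuousLinearMap.exists_lt_apply_of_lt_opNorm T hr
  have hKε : 0 < K - ε := by linarith
  have hTx0 : 0 < ‖T x0‖ := hKε.trans hx0'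
  have hx0n : 0 < ‖x0‖ := by
    rw [norm_pos_iff]
    rintro rfl
    simp at hTx0
  set x : H := ((‖x0‖⁻¹ : ℝ) : ℂ) • x0 with hx
  have hx1 : ‖x‖ = 1 := by
    rw [hx, norm_smul, Complex.norm_real, norm_inv, norm_norm, inv_mul_cancel₀ hx0n.ne']
  set κ := ‖T x‖ with hκ
  have hκε : K - ε < κ := by
    rw [hκ, hx, map_smul, norm_smul, Complex.norm_real, norm_inv, norm_norm]
    have h1 : 1 ≤ ‖x0‖⁻¹ := (one_le_inv₀ hx0n).2 hx0.le
    calc K - ε < ‖T x0‖ := hx0'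
      _ = 1 * ‖T x0‖ := (one_mul _).symm
      _ ≤ ‖x0‖⁻¹ * ‖T x0‖ := by gcongr
  have hκ0 : 0 < κ := hKε.trans hκε
  have hκK : κ ≤ K := by
    have h1 := T.le_opNorm x
    rw [hx1, mul_one] at h1
    exact h1.trans hTK
  have hκc : (κ : ℂ) ≠ 0 := by exact_mod_cast hκ0.ne'
  set y : H := ((κ⁻¹ : ℝ) : ℂ) • T x with hy
  have hy1 : ‖y‖ = 1 := by
    rw [hy, norm_smul, Complex.norm_real, norm_inv, Real.norm_of_nonneg hκ0.le,
      ← hκ, inv_mul_cancel₀ hκ0.ne']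
  have hxy : T x = (κ : ℂ) • y := by
    rw [hy, smul_smul]
    push_cast
    rw [mul_inv_cancel₀ hκc, one_smul]
  have hεs : 0 < Real.sqrt ε := Real.sqrt_pos.2 hε0
  have hεε : Real.sqrt ε ^ 2 = ε := Real.sq_sqrt hε0.le
  have hort := ortho T hTK hm hx1 hy1 hκ0 hxy hεs
  have hK2κ : K ^ 2 - κ ^ 2 ≤ 4 * ε := by nlinarith
  have hsq2 : Real.sqrt (K ^ 2 - κ ^ 2) ≤ 2 * Real.sqrt ε := by
    rw [Real.sqrt_le_left (by positivity), mul_pow, hεε]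
    linarith
  set θ := ‖inner ℂ y x‖ with hθ
  have hθ0 : 0 ≤ θ := norm_nonneg _
  have h9 : (κ ^ 2 - 1) * θ ≤ 9 * Real.sqrt ε := by
    have h1 : κ * Real.sqrt ε * Real.sqrt (K ^ 2 - κ ^ 2) ≤
        2 * Real.sqrt ε * (2 * Real.sqrt ε) := by
      have h2 : κ ≤ 2 := hκK.trans hK2
      gcongr
    rw [hεε] at hort
    have h3 : Real.sqrt ε * ((κ ^ 2 - 1) * θ) ≤ Real.sqrt ε * (9 * Real.sqrt ε) := by
      nlinarith
    exact le_of_mul_le_mul_left h3 hεs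
  have hκ1 : (K - 1) / 2 ≤ κ ^ 2 - 1 := by nlinarith
  have h10 : (K - 1) / 2 * θ ≤ 9 * Real.sqrt ε :=
    (mul_le_mul_of_nonneg_right hκ1 hθ0).trans h9
  have h11 : θ ^ 2 ≤ 324 * ε / (K - 1) ^ 2 := by
    rw [le_div_iff₀ (by positivity)]
    have h1 : (K - 1) * θ ≤ 18 * Real.sqrt ε := by linarith
    have h2 : ((K - 1) * θ) ^ 2 ≤ (18 * Real.sqrt ε) ^ 2 :=
      pow_le_pow_left₀ (by positivity) h1 2
    rw [mul_pow, mul_pow, hεε] at h2
    linarith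
  -- the similarity
  have hsim' := hsim y x hy1
  rw [hxy, map_smul, Di_self s hy1, norm_smul, hy1, Complex.norm_real,
    Real.norm_of_nonneg hκ0.le] at hsim'
  have h12 := Di_norm s hy1 x
  rw [hx1] at h12
  have h13 : κ ^ 2 ≤ 4 * ‖Di s y x‖ ^ 2 := by
    have h1 : (κ * 1) ^ 2 ≤ (2 * ‖Di s y x‖) ^ 2 := pow_le_pow_left₀ (by positivity) hsim' 2
    linarith
  have h14 : ‖Di s y x‖ ^ 2 ≤ s ^ 2 + θ ^ 2 := by
    rw [h12]
    have h1 : (1 - s ^ 2) * ‖inner ℂ y x‖ ^ 2 ≤ 1 * θ ^ 2 := by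
      rw [hθ]
      gcongr
      nlinarith
    linarith
  have h1 : ε * (4 + 1296 / (K - 1) ^ 2) = 4 * ε + 4 * (324 * ε / (K - 1) ^ 2) := by
    field_simp
    ring
  rw [h1]
  linarith

/-- **The main bound.** -/
theorem main_bound [Nontrivial H] (A : H →L[ℂ] H) (q : ℂ) (hq0 : q ≠ 0) (hq1 : ‖q‖ ≤ 1)
    (hb : ‖q‖ = 1 ∨ Big H) {s : ℝ} (hs : 0 < s) (hs1 : s ≤ 1) (hsq : (s + s⁻¹) / 2 = 1 / ‖q‖)
    (p : ℂ[X]) (M : ℝ) (hM : ∀ z ∈ Om A q, ‖p.eval z‖ ≤ M) :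
    ‖aeval A p‖ ≤ max 1 (2 * s) * M := by
  -- the numerical range
  have hnum : ∀ (p : ℂ[X]) (M : ℝ), (∀ z ∈ Om A q, ‖p.eval z‖ ≤ M) → ∀ ξ : H, ‖ξ‖ = 1 →
      ‖p.eval (inner ℂ ξ (A ξ))‖ ≤ M := by
    intro p M hM ξ hξ
    apply disc_le A q hq0 hq1 hb p M hM hξ
    rw [sub_self, norm_zero]
    positivity
  have htwo : ∀ (p : ℂ[X]) (M : ℝ), (∀ z ∈ Om A q, ‖p.eval z‖ ≤ M) → ‖aeval A p‖ ≤ 2 * M := by
    intro p M hM
    apply Pool.Agent.W753.CZ.crouzeix_bound A p M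
    rintro w ⟨ξ, hξ, rfl⟩
    exact hnum p M hM ξ hξ
  set S : Set ℝ := {r | ∃ p : ℂ[X], (∀ z ∈ Om A q, ‖p.eval z‖ ≤ 1) ∧ r = ‖aeval A p‖} with hS
  have hS2 : ∀ r ∈ S, r ≤ 2 := by
    rintro r ⟨p, hp, rfl⟩
    have := htwo p 1 hp
    linarith
  have hSb : BddAbove S := ⟨2, hS2⟩
  have hSn : S.Nonempty := ⟨‖aeval A (0 : ℂ[X])‖, 0, fun z _ => by simp, rfl⟩
  obtain ⟨K, hK⟩ : ∃ K, K = sSup S := ⟨_, rfl⟩
  have hKle : ∀ p : ℂ[X], (∀ z ∈ Om A q, ‖p.eval z‖ ≤ 1) → ‖aeval A p‖ ≤ K := fun p hp => by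
    rw [hK]
    exact le_csSup hSb ⟨p, hp, rfl⟩
  have hK2 : K ≤ 2 := by
    rw [hK]
    exact csSup_le hSn hS2
  have hmain : K ≤ max 1 (2 * s) := by
    by_contra hcon
    rw [not_le, max_lt_iff] at hcon
    obtain ⟨hK1, hKs⟩ := hcon
    have hKd : 0 < K - 1 := by linarith
    have hK4 : 0 < K ^ 2 - 4 * s ^ 2 := by nlinarith
    set c : ℝ := 4 + 1296 / (K - 1) ^ 2 with hc
    have hc0 : 0 < c := by positivity
    set ε : ℝ := min ((K - 1) / 4) ((K ^ 2 - 4 * s ^ 2) / (2 * c)) with hε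
    have hε0 : 0 < ε := lt_min (by linarith) (by positivity)
    have hε1 : ε ≤ (K - 1) / 4 := min_le_left _ _
    have hε2 : ε * c < K ^ 2 - 4 * s ^ 2 := by
      have h1 : ε ≤ (K ^ 2 - 4 * s ^ 2) / (2 * c) := min_le_right _ _
      have h2 := mul_le_mul_of_nonneg_right h1 hc0.le
      have h3 : (K ^ 2 - 4 * s ^ 2) / (2 * c) * c = (K ^ 2 - 4 * s ^ 2) / 2 := by
        field_simp
      rw [h3] at h2
      linarith
    obtain ⟨r, ⟨p, hp, rfl⟩, hr⟩ := exists_lt_of_lt_csSup hSn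
      (show K - ε < sSup S by rw [← hK]; linarith)
    have h15 := near (aeval A p) hK1 hK2 (hKle p hp) (mob_poly A _ hKle p hp) hr hε0 hε1 hs hs1
      (fun e v he => by
        have := conj_bound A q hq0 hq1 hb hs hsq p 1 hp he v
        rwa [mul_one] at this)
    rw [← hc] at h15
    linarith
  -- the conclusion
  obtain ⟨ξ, hξ⟩ := exists_norm_eq H (zero_le_one' ℝ)
  have hM0 : 0 ≤ M := (norm_nonneg _).trans (hnum p M hM ξ hξ)
  refine le_of_forall_pos_le_add fun δ hδ => ?_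
  set c := max 1 (2 * s) with hc
  have hc1 : 1 ≤ c := le_max_left _ _
  have hc0 : 0 < c := by linarith
  have hδc : 0 < δ / c := div_pos hδ hc0
  have hM'0 : 0 < M + δ / c := by linarith
  have h1 := hKle (C (((M + δ / c)⁻¹ : ℝ) : ℂ) * p) (by
    intro z hz
    rw [eval_mul, eval_C, norm_mul, Complex.norm_real, norm_inv, Real.norm_of_nonneg hM'0.le,
      inv_mul_le_iff₀ hM'0, mul_one]
    refine (hM z hz).trans ?_
    linarith)
  rw [map_mul, aeval_C, Algebra.algebraMap_eq_smul_one, smul_mul_assoc, one_mul, norm_smul,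
    Complex.norm_real, norm_inv, Real.norm_of_nonneg hM'0.le, inv_mul_le_iff₀ hM'0] at h1
  calc ‖aeval A p‖ ≤ (M + δ / c) * K := h1
    _ ≤ (M + δ / c) * c := by gcongr
    _ = c * M + δ := by
      field_simp

end Pool.Agent.T2H66.QN
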