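import Pool.Agent.T2H66.QN.Ext

/-!
# Dimension at least two, and matrices
-/

set_option autoImplicit false

open Polynomial

namespace Pool.Agent.T2H66.QN

variable {H : Type*} [NormedAddCommGroup H] [InnerProductSpace ℂ H]

lemma big_of_rank (h1 : 1 < Module.rank ℂ H) : Big H := by
  have hnt : Nontrivial H := by
    by_contra hcon
    rw [not_nontrivial_iff_subsingleton] at hcon
    rw [rank_subsingleton'] at h1
    exact absurd h1 (by simp)
  intro x
  by_cases hx : x = 0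
  · obtain ⟨h, hh⟩ := exists_norm_eq H (zero_le_one' ℝ)
    exact ⟨h, hh, by rw [hx, inner_zero_right]⟩
  obtain ⟨y, hy⟩ := exists_linearIndependent_pair_of_one_lt_rank h1 hx
  have hxx : inner ℂ x x ≠ (0 : ℂ) := inner_self_ne_zero.2 hx
  set g : H := y - (inner ℂ x y / inner ℂ x x) • x with hg
  have hxg : inner ℂ x g = (0 : ℂ) := by
    rw [hg, inner_sub_right, inner_smul_right, div_mul_cancel₀ _ hxx, sub_self]
  have hg0 : g ≠ 0 := by
    intro h0
    rw [LinearIndependent.pair_iff] at hy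
    have h2 := hy (-(inner ℂ x y / inner ℂ x x)) 1 (by
      rw [neg_smul, one_smul, neg_add_eq_sub]
      exact h0)
    exact one_ne_zero h2.2
  have hgn : 0 < ‖g‖ := norm_pos_iff.2 hg0
  refine ⟨((‖g‖⁻¹ : ℝ) : ℂ) • g, ?_, ?_⟩
  · rw [norm_smul, Complex.norm_real, norm_inv, norm_norm, inv_mul_cancel₀ hgn.ne']
  · rw [inner_smul_left, ← inner_conj_symm, hxg]
    simp

/-- the parameter `s` -/
lemma exists_param {r : ℝ} (h0 : 0 < r) (h1 : r ≤ 1) : ∃ s : ℝ, 0 < s ∧ s ≤ 1 ∧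
    (s + s⁻¹) / 2 = 1 / r ∧ 2 * s = 2 * r / (1 + Real.sqrt (1 - r ^ 2)) := by
  have hs0 : 0 ≤ Real.sqrt (1 - r ^ 2) := Real.sqrt_nonneg _
  have hs2 : Real.sqrt (1 - r ^ 2) ^ 2 = 1 - r ^ 2 := Real.sq_sqrt (by nlinarith)
  refine ⟨r / (1 + Real.sqrt (1 - r ^ 2)), by positivity, ?_, ?_, by ring⟩
  · rw [div_le_one (by positivity)]
    linarith
  · rw [inv_div]
    field_simp
    nlinarith

variable [CompleteSpace H]

/-- **The bound for operators.** -/
theorem op_bound (A : H →L[ℂ] H) (q : ℂ) (hq0 : 0 < ‖q‖) (hq1 : ‖q‖ ≤ 1)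
    (hb : (‖q‖ = 1 ∧ Nontrivial H) ∨ 1 < Module.rank ℂ H) (p : ℂ[X]) (M : ℝ)
    (hM : ∀ z ∈ Om A q, ‖p.eval z‖ ≤ M) :
    ‖aeval A p‖ ≤ max 1 (2 * ‖q‖ / (1 + Real.sqrt (1 - ‖q‖ ^ 2))) * M := by
  obtain ⟨s, hs, hs1, hsq, he⟩ := exists_param hq0 hq1
  have hnt : Nontrivial H := by
    rcases hb with ⟨-, hb⟩ | hb
    · exact hb
    · by_contra hcon
      rw [not_nontrivial_iff_subsingleton] at hcon
      rw [rank_subsingleton'] at hb
      exact absurd hb (by simp)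
  rw [← he]
  exact main_bound A q (norm_pos_iff.1 hq0) hq1 (hb.imp (fun h => h.1) big_of_rank) hs hs1 hsq p M
    hM

end Pool.Agent.T2H66.QN
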