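import Pool.Agent.T2H66.QN.Fin

set_option autoImplicit false

open Polynomial
open scoped Matrix.Norms.L2Operator

namespace Pool.Agent.T2H66.QN.Final

/-- The standard inner product `⟨x, y⟩ = ∑ i, x i * conj (y i)` of `ℂ^n`, linear in the first
argument. -/
def ip {n : ℕ} (x y : Fin n → ℂ) : ℂ := ∑ i, x i * star (y i)

/-- The `q`-numerical range `W_q(A) = {⟨A x, y⟩ : ‖x‖ = ‖y‖ = 1, ⟨x, y⟩ = q}` of a matrix. -/
def qNumRange {n : ℕ} (A : Matrix (Fin n) (Fin n) ℂ) (q : ℂ) : Set ℂ :=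
  {w | ∃ x y : Fin n → ℂ, ip x x = 1 ∧ ip y y = 1 ∧ ip x y = q ∧ w = ip (A.mulVec x) y}

/-- The scaled `q`-numerical range `Ω_q = W_q(A) / q`. -/
def scaledRange {n : ℕ} (A : Matrix (Fin n) (Fin n) ℂ) (q : ℂ) : Set ℂ :=
  {z | ∃ w ∈ qNumRange A q, z = w / q}

/-- The same for a bounded operator on a complex Hilbert space (the inner product `⟨x, y⟩`, linear
in `x`, is `inner ℂ y x` in Mathlib). -/
def opScaledRange {H : Type*} [NormedAddCommGroup H] [InnerProductSpace ℂ H] (A : H →L[ℂ] H)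
    (q : ℂ) : Set ℂ :=
  {z | ∃ x y : H, ‖x‖ = 1 ∧ ‖y‖ = 1 ∧ inner ℂ y x = q ∧ z = inner ℂ y (A x) / q}

/-- The constant `c(q) = max (1, 2|q| / (1 + √(1 - |q|²)))`. -/
noncomputable def cq (q : ℂ) : ℝ := max 1 (2 * ‖q‖ / (1 + Real.sqrt (1 - ‖q‖ ^ 2)))

/-- **The Crouzeix-type bound for scaled `q`-numerical ranges.** Matrices carry the operator norm
induced by the Euclidean norm. For every `n × n` matrix `A`, every `q` with `0 < |q| ≤ 1` (and
`|q| = 1` if `n = 1`: for `n = 1` and `|q| < 1` the set `W_q(A)` is empty) and every polynomial `p`,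
`‖p(A)‖ ≤ c(q) sup_{z ∈ Ω_q} |p(z)|`; the set `Ω_q` is nonempty and the supremum is finite.
The same bound holds for every bounded operator on a complex Hilbert space of dimension `≥ 2`
(of dimension `≥ 1` if `|q| = 1`). -/
theorem result :
    (∀ (n : ℕ) (A : Matrix (Fin n) (Fin n) ℂ) (q : ℂ) (p : ℂ[X]), 1 ≤ n → 0 < ‖q‖ → ‖q‖ ≤ 1 →
      (n = 1 → ‖q‖ = 1) →
      (scaledRange A q).Nonempty ∧ BddAbove ((fun z => ‖p.eval z‖) '' scaledRange A q) ∧
        ‖aeval A p‖ ≤ cq q * sSup ((fun z => ‖p.eval z‖) '' scaledRange A q)) ∧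
    (∀ (H : Type) [NormedAddCommGroup H] [InnerProductSpace ℂ H] [CompleteSpace H]
      (A : H →L[ℂ] H) (q : ℂ) (p : ℂ[X]) (M : ℝ), 0 < ‖q‖ → ‖q‖ ≤ 1 →
      ((‖q‖ = 1 ∧ Nontrivial H) ∨ 1 < Module.rank ℂ H) →
      (∀ z ∈ opScaledRange A q, ‖p.eval z‖ ≤ M) → ‖aeval A p‖ ≤ cq q * M) := by
  constructor
  · intro n A q p hn hq0 hq1 hnq
    set B := Matrix.toEuclideanCLM (n := Fin n) (𝕜 := ℂ) A with hB
    have hq : q ≠ 0 := norm_pos_iff.1 hq0
    have hb : (‖q‖ = 1 ∧ Nontrivial (EuclideanSpace ℂ (Fin n))) ∨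
        1 < Module.rank ℂ (EuclideanSpace ℂ (Fin n)) := by
      by_cases h1 : n = 1
      · subst h1
        exact Or.inl ⟨hnq rfl, inferInstance⟩
      · right
        rw [← Module.finrank_eq_rank, finrank_euclideanSpace_fin]
        exact_mod_cast (by omega : 1 < n)
    have hnt : Nontrivial (EuclideanSpace ℂ (Fin n)) := by
      have : NeZero n := ⟨by omega⟩
      infer_instance
    -- the two scaled ranges agree
    have hnorm : ∀ x : EuclideanSpace ℂ (Fin n), ip x.ofLp x.ofLp = 1 ↔ ‖x‖ = 1 := by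
      intro x
      have h1 : ip x.ofLp x.ofLp = ((‖x‖ ^ 2 : ℝ) : ℂ) := by
        have h2 : inner ℂ x x = ip x.ofLp x.ofLp := by
          rw [EuclideanSpace.inner_eq_star_dotProduct]
          rfl
        rw [← h2, inner_self_eq_norm_sq_to_K]
        push_cast
        rfl
      rw [h1]
      constructor
      · intro h2
        have h3 : ‖x‖ ^ 2 = 1 := by exact_mod_cast h2
        have h4 := norm_nonneg x
        nlinarith
      · intro h2
        rw [h2]
        simp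
    have hsub : T2H66.QN.Om B q ⊆ scaledRange A q := by
      rintro z ⟨x, y, hx, hy, hxy, rfl⟩
      refine ⟨inner ℂ y (B x), ⟨x.ofLp, y.ofLp, (hnorm x).2 hx, (hnorm y).2 hy, ?_, ?_⟩, rfl⟩
      · rw [← hxy, EuclideanSpace.inner_eq_star_dotProduct]
        rfl
      · rw [EuclideanSpace.inner_eq_star_dotProduct, hB, Matrix.ofLp_toEuclideanCLM]
        rfl
    have hsub' : scaledRange A q ⊆ T2H66.QN.Om B q := by
      rintro z ⟨w, ⟨x, y, hx, hy, hxy, rfl⟩, rfl⟩
      refine ⟨WithLp.toLp 2 x, WithLp.toLp 2 y, (hnorm _).1 hx, (hnorm _).1 hy, ?_, ?_⟩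
      · rw [← hxy, EuclideanSpace.inner_toLp_toLp]
        rfl
      · rw [hB, Matrix.toEuclideanCLM_toLp, EuclideanSpace.inner_toLp_toLp]
        rfl
    have hne : (scaledRange A q).Nonempty := by
      obtain ⟨x, hx⟩ := exists_norm_eq (EuclideanSpace ℂ (Fin n)) (zero_le_one' ℝ)
      refine ⟨_, hsub (T2H66.QN.circle_mem B q hq hq1
        (hb.imp (fun h => h.1) T2H66.QN.big_of_rank) hx
        (ζ := ((Real.sqrt (1 - ‖q‖ ^ 2) / ‖q‖ * ‖T2H66.QN.dev B x‖ : ℝ) : ℂ)) ?_)⟩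
      rw [Complex.norm_real, Real.norm_of_nonneg (by positivity)]
    have hbdd : BddAbove ((fun z => ‖p.eval z‖) '' scaledRange A q) := by
      have h1 : IsCompact (Metric.closedBall (0 : ℂ) (‖B‖ / ‖q‖)) := isCompact_closedBall _ _
      have h2 : BddAbove ((fun z => ‖p.eval z‖) '' Metric.closedBall (0 : ℂ) (‖B‖ / ‖q‖)) :=
        h1.bddAbove_image (by fun_prop)
      refine h2.mono (Set.image_mono ?_)
      intro z hz
      obtain ⟨x, y, hx, hy, -, rfl⟩ := hsub' hz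
      rw [mem_closedBall_zero_iff, norm_div]
      gcongr
      refine (norm_inner_le_norm _ _).trans ?_
      rw [hy, one_mul]
      have h3 := B.le_opNorm x
      rwa [hx, mul_one] at h3
    refine ⟨hne, hbdd, ?_⟩
    have h1 := T2H66.QN.op_bound B q hq0 hq1 hb p
      (sSup ((fun z => ‖p.eval z‖) '' scaledRange A q)) (fun z hz =>
        le_csSup hbdd (Set.mem_image_of_mem _ (hsub hz)))
    have h2 : aeval B p = Matrix.toEuclideanCLM (n := Fin n) (𝕜 := ℂ) (aeval A p) :=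
      Polynomial.aeval_algHom_apply (Matrix.toEuclideanCLM (n := Fin n) (𝕜 := ℂ)) A p
    rw [h2, Matrix.l2_opNorm_toEuclideanCLM] at h1
    exact h1
  · intro H _ _ _ A q p M hq0 hq1 hb hM
    exact T2H66.QN.op_bound A q hq0 hq1 hb p M hM

end Pool.Agent.T2H66.QN.Final
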