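import Pool.Agent.T2H66.QN.Basic
import Pool.Agent.W753.CZ.Crouzeix

/-!
# Similarities and the scaled `q`-numerical range
-/

set_option autoImplicit false

open Polynomial

namespace Pool.Agent.T2H66.QN

variable {H : Type*} [NormedAddCommGroup H] [InnerProductSpace ℂ H]

/-- `x ↦ ⟨x, e⟩ e + s (x - ⟨x, e⟩ e)` -/
noncomputable def Di (s : ℝ) (e : H) : H →L[ℂ] H :=
  (s : ℂ) • (1 : H →L[ℂ] H) + ((1 - s : ℝ) : ℂ) • (innerSL ℂ e).smulRight e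

lemma Di_apply (s : ℝ) (e x : H) :
    Di s e x = (s : ℂ) • x + (((1 - s : ℝ) : ℂ) * inner ℂ e x) • e := by
  unfold Di
  simp [smul_smul]

lemma Di_mul {s : ℝ} (hs : s ≠ 0) {e : H} (he : ‖e‖ = 1) (x : H) :
    Di s e (Di s⁻¹ e x) = x := by
  have hee : inner ℂ e e = (1 : ℂ) := by
    rw [inner_self_eq_norm_sq_to_K, he]
    simp
  have hsc : (s : ℂ) ≠ 0 := by exact_mod_cast hs
  rw [Di_apply, Di_apply, inner_add_right, inner_smul_right, inner_smul_right, hee, smul_add,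
    smul_smul, smul_smul, add_assoc, ← add_smul]
  have h1 : (s : ℂ) * ((s⁻¹ : ℝ) : ℂ) = 1 := by
    push_cast
    field_simp
  have h2 : (s : ℂ) * (((1 - s⁻¹ : ℝ) : ℂ) * inner ℂ e x) + ((1 - s : ℝ) : ℂ) *
      (((s⁻¹ : ℝ) : ℂ) * inner ℂ e x + ((1 - s⁻¹ : ℝ) : ℂ) * inner ℂ e x * 1) = 0 := by
    push_cast
    field_simp
    ring
  rw [h1, h2, one_smul, zero_smul, add_zero]

lemma Di_mul' {s : ℝ} (hs : s ≠ 0) {e : H} (he : ‖e‖ = 1) : Di s e * Di s⁻¹ e = 1 := by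
  ext x
  exact Di_mul hs he x

lemma Di_mul'' {s : ℝ} (hs : s ≠ 0) {e : H} (he : ‖e‖ = 1) : Di s⁻¹ e * Di s e = 1 := by
  have h1 := Di_mul' (inv_ne_zero hs) he
  rwa [inv_inv] at h1

lemma Di_self (s : ℝ) {e : H} (he : ‖e‖ = 1) : Di s e e = e := by
  have hee : inner ℂ e e = (1 : ℂ) := by
    rw [inner_self_eq_norm_sq_to_K, he]
    simp
  rw [Di_apply, hee, mul_one, ← add_smul]
  have h1 : (s : ℂ) + ((1 - s : ℝ) : ℂ) = 1 := by
    push_cast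
    ring
  rw [h1, one_smul]

lemma Di_inner (s : ℝ) (e x y : H) : inner ℂ (Di s e x) y = inner ℂ x (Di s e y) := by
  rw [Di_apply, Di_apply, inner_add_left, inner_add_right, inner_smul_left, inner_smul_left,
    inner_smul_right, inner_smul_right, map_mul, Complex.conj_ofReal, Complex.conj_ofReal,
    inner_conj_symm]
  ring

lemma Di_norm (s : ℝ) {e : H} (he : ‖e‖ = 1) (x : H) :
    ‖Di s e x‖ ^ 2 = s ^ 2 * ‖x‖ ^ 2 + (1 - s ^ 2) * ‖inner ℂ e x‖ ^ 2 := by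
  rw [Di_apply, @norm_add_sq ℂ, inner_smul_left, inner_smul_right, norm_smul, norm_smul, norm_mul,
    he, Complex.conj_ofReal, Complex.norm_real, Complex.norm_real, mul_pow, mul_pow, mul_pow,
    Real.norm_eq_abs, Real.norm_eq_abs, sq_abs, sq_abs]
  have h1 : (s : ℂ) * (((1 - s : ℝ) : ℂ) * inner ℂ e x * inner ℂ x e) =
      ((s * (1 - s) * ‖inner ℂ e x‖ ^ 2 : ℝ) : ℂ) := by
    rw [← inner_conj_symm x e, mul_assoc, Complex.mul_conj, Complex.normSq_eq_norm_sq]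
    push_cast
    ring
  rw [h1, RCLike.re_eq_complex_re, Complex.ofReal_re]
  ring

/-- conjugation of polynomials in an operator -/
lemma aeval_conj (A D E : H →L[ℂ] H) (h1 : D * E = 1) (h2 : E * D = 1) (p : ℂ[X]) :
    aeval (D * A * E) p = D * aeval A p * E := by
  have hpow : ∀ n : ℕ, (D * A * E) ^ n = D * A ^ n * E := by
    intro n
    induction n with
    | zero => rw [pow_zero, pow_zero, mul_one, h1]
    | succ n ih =>
      rw [pow_succ, ih, pow_succ]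
      calc D * A ^ n * E * (D * A * E) = D * A ^ n * (E * D) * A * E := by
            simp only [mul_assoc]
        _ = D * (A ^ n * A) * E := by rw [h2, mul_one]; simp only [mul_assoc]
  induction p using Polynomial.induction_on' with
  | add p q hp hq => rw [map_add, map_add, hp, hq, mul_add, add_mul]
  | monomial n a =>
    rw [aeval_monomial, aeval_monomial, hpow, Algebra.algebraMap_eq_smul_one, smul_mul_assoc,
      smul_mul_assoc, one_mul, one_mul, mul_smul_comm, smul_mul_assoc]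

/-- **The numerical range of the conjugated operator.** -/
lemma range_le (A : H →L[ℂ] H) (q : ℂ) (hq0 : q ≠ 0) (hq1 : ‖q‖ ≤ 1)
    (hb : ‖q‖ = 1 ∨ Big H) {s : ℝ} (hs : 0 < s) (hsq : (s + s⁻¹) / 2 = 1 / ‖q‖) (p : ℂ[X]) (M : ℝ)
    (hM : ∀ z ∈ Om A q, ‖p.eval z‖ ≤ M) {e ξ : H} (he : ‖e‖ = 1) (hξ : ‖ξ‖ = 1) :
    ‖p.eval (inner ℂ ξ ((Di s e * A * Di s⁻¹ e) ξ))‖ ≤ M := by
  have hqn : 0 < ‖q‖ := norm_pos_iff.2 hq0
  set x1 := Di s⁻¹ e ξ with hx1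
  set y1 := Di s e ξ with hy1
  have hw : inner ℂ ξ ((Di s e * A * Di s⁻¹ e) ξ) = inner ℂ y1 (A x1) := by
    rw [hy1, Di_inner]
    rfl
  have hξξ : inner ℂ ξ ξ = (1 : ℂ) := by
    rw [inner_self_eq_norm_sq_to_K, hξ]
    simp
  have h11 : inner ℂ y1 x1 = (1 : ℂ) := by
    rw [hy1, Di_inner, hx1, Di_mul hs.ne' he, hξξ]
  have hx1n : 0 < ‖x1‖ := by
    rw [norm_pos_iff]
    intro h0
    rw [h0, inner_zero_right] at h11
    exact zero_ne_one h11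
  set n := ‖x1‖ with hn
  have hnc : (n : ℂ) ≠ 0 := by exact_mod_cast hx1n.ne'
  set x : H := ((n⁻¹ : ℝ) : ℂ) • x1 with hx
  have hxn : ‖x‖ = 1 := by
    rw [hx, norm_smul, Complex.norm_real, norm_inv, Real.norm_of_nonneg hx1n.le,
      inv_mul_cancel₀ hx1n.ne']
  have hx1x : x1 = (n : ℂ) • x := by
    rw [hx, smul_smul]
    push_cast
    rw [mul_inv_cancel₀ hnc, one_smul]
  have hyx : inner ℂ y1 x = ((n⁻¹ : ℝ) : ℂ) := by
    rw [hx, inner_smul_right, h11, mul_one]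
  rw [hw]
  apply disc_le A q hq0 hq1 hb p M hM hxn
  set m : ℂ := inner ℂ x (A x) with hm
  have hAx : A x = dev A x + m • x := by
    unfold dev
    abel
  have hwm : inner ℂ y1 (A x1) - m = (n : ℂ) * inner ℂ (y1 - ((n⁻¹ : ℝ) : ℂ) • x) (dev A x) := by
    rw [hx1x, map_smul, hAx, inner_smul_right, inner_add_right, inner_smul_right, hyx,
      inner_sub_left, inner_smul_left, inner_dev A hxn]
    push_cast
    field_simp
    ring
  rw [hwm, norm_mul, Complex.norm_real, Real.norm_of_nonneg hx1n.le]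
  have hk : ‖y1 - ((n⁻¹ : ℝ) : ℂ) • x‖ ^ 2 = ‖y1‖ ^ 2 - (n⁻¹) ^ 2 := by
    rw [@norm_sub_sq ℂ, inner_smul_right, hyx, norm_smul, hxn, Complex.norm_real,
      Real.norm_eq_abs, mul_one, sq_abs, ← Complex.ofReal_mul, RCLike.re_eq_complex_re,
      Complex.ofReal_re]
    ring
  -- the product of the norms
  have hprod : n ^ 2 * ‖y1‖ ^ 2 ≤ (1 / ‖q‖) ^ 2 := by
    set c := ‖inner ℂ e ξ‖ ^ 2 with hc
    have hc0 : 0 ≤ c := by positivity
    have hc1 : c ≤ 1 := by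
      have h1 : ‖inner ℂ e ξ‖ ≤ 1 := by
        have := norm_inner_le_norm (𝕜 := ℂ) e ξ
        rwa [he, hξ, one_mul] at this
      rw [hc]
      exact pow_le_one₀ (norm_nonneg _) h1
    have e1 : n ^ 2 = s⁻¹ ^ 2 * 1 + (1 - s⁻¹ ^ 2) * c := by
      rw [hn, hx1, Di_norm _ he, hξ]
      ring
    have e2 : ‖y1‖ ^ 2 = s ^ 2 * 1 + (1 - s ^ 2) * c := by
      rw [hy1, Di_norm _ he, hξ]
      ring
    rw [e1, e2, ← hsq]
    have h3 : ((s + s⁻¹) / 2) ^ 2 - (s⁻¹ ^ 2 * 1 + (1 - s⁻¹ ^ 2) * c) *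
        (s ^ 2 * 1 + (1 - s ^ 2) * c) = (s - s⁻¹) ^ 2 * (c - 1 / 2) ^ 2 := by
      field_simp
      ring
    nlinarith [mul_nonneg (sq_nonneg (s - s⁻¹)) (sq_nonneg (c - 1 / 2))]
  have hfin : n * ‖y1 - ((n⁻¹ : ℝ) : ℂ) • x‖ ≤ Real.sqrt (1 - ‖q‖ ^ 2) / ‖q‖ := by
    have h1 : (n * ‖y1 - ((n⁻¹ : ℝ) : ℂ) • x‖) ^ 2 ≤ (Real.sqrt (1 - ‖q‖ ^ 2) / ‖q‖) ^ 2 := by
      rw [mul_pow, hk, div_pow, Real.sq_sqrt (by nlinarith [norm_nonneg q])]
      have h2 : n ^ 2 * (‖y1‖ ^ 2 - (n⁻¹) ^ 2) = n ^ 2 * ‖y1‖ ^ 2 - 1 := by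
        field_simp
      rw [h2]
      have h3 : (1 - ‖q‖ ^ 2) / ‖q‖ ^ 2 = (1 / ‖q‖) ^ 2 - 1 := by
        field_simp
      rw [h3]
      linarith
    exact abs_le_of_sq_le_sq' h1 (by positivity) |>.2
  calc n * ‖inner ℂ (y1 - ((n⁻¹ : ℝ) : ℂ) • x) (dev A x)‖
      ≤ n * (‖y1 - ((n⁻¹ : ℝ) : ℂ) • x‖ * ‖dev A x‖) := by
        gcongr
        exact norm_inner_le_norm _ _
    _ = n * ‖y1 - ((n⁻¹ : ℝ) : ℂ) • x‖ * ‖dev A x‖ := by ring
    _ ≤ _ := by gcongr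

variable [CompleteSpace H]

/-- **Crouzeix's bound for the conjugated operator.** -/
lemma conj_bound [Nontrivial H] (A : H →L[ℂ] H) (q : ℂ) (hq0 : q ≠ 0) (hq1 : ‖q‖ ≤ 1)
    (hb : ‖q‖ = 1 ∨ Big H) {s : ℝ} (hs : 0 < s) (hsq : (s + s⁻¹) / 2 = 1 / ‖q‖) (p : ℂ[X]) (M : ℝ)
    (hM : ∀ z ∈ Om A q, ‖p.eval z‖ ≤ M) {e : H} (he : ‖e‖ = 1) (v : H) :
    ‖Di s e (aeval A p v)‖ ≤ 2 * M * ‖Di s e v‖ := by
  have h1 := Pool.Agent.W753.CZ.crouzeix_bound (Di s e * A * Di s⁻¹ e) p M (by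
    rintro w ⟨ξ, hξ, rfl⟩
    exact range_le A q hq0 hq1 hb hs hsq p M hM he hξ)
  rw [aeval_conj A _ _ (Di_mul' hs.ne' he) (Di_mul'' hs.ne' he)] at h1
  have h2 := (Di s e * aeval A p * Di s⁻¹ e).le_opNorm (Di s e v)
  have h3 : (Di s e * aeval A p * Di s⁻¹ e) (Di s e v) = Di s e (aeval A p v) := by
    have h4 : Di s⁻¹ e (Di s e v) = v := by
      have := congrArg (fun Y : H →L[ℂ] H => Y v) (Di_mul'' hs.ne' he)
      simpa using this
    show Di s e (aeval A p (Di s⁻¹ e (Di s e v))) = _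
    rw [h4]
  rw [h3] at h2
  exact h2.trans (mul_le_mul_of_nonneg_right h1 (norm_nonneg _))

end Pool.Agent.T2H66.QN
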